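import Pool.Agent.Lib.MP_1a91b9_nuX.PG.Defs
import Pool.Agent.Lib.MP_1a91b9_nuX.AN.Unfold
import Pool.Agent.Lib.MP_1a91b9_nuG.RayC

/-!
# The primitive Hecke character: the complex values
-/

set_option autoImplicit false

namespace Pool.Agent.Lib.MP_1a91b9_nuX.PA

open NumberField IsDedekindDomain WeierstrassCurve Pool.Agent.Lib.MP_1a91b9_nuT
  Pool.Agent.Lib.MP_1a91b9_nt
open Pool.Agent.Lib.MP_1a91b9_nuT.S4
open Pool.Agent.Lib.MP_1a91b9_nuX.PG
open Pool.Agent.Lib.MP_1a91b9_nuG (exists_inv_mod)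

variable [CD]

universe u

/-- the complex value of the character -/
noncomputable def pC {F : Type*} [Field F] [NumberField F] (ps : Ideal (𝓞 F) → 𝓞 K)
    (I : Ideal (𝓞 F)) : ℂ := embK (ps I : K)

theorem bC_eq {F : Type*} [Field F] [NumberField F] (ps : Ideal (𝓞 F) → 𝓞 K)
    (I : Ideal (𝓞 F)) : bC ps I = (starRingEnd ℂ) (pC ps I) := rfl

theorem isIntegral_pC {F : Type*} [Field F] [NumberField F] (ps : Ideal (𝓞 F) → 𝓞 K)
    (I : Ideal (𝓞 F)) : IsIntegral ℤ (pC ps I) := by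
  have h : IsIntegral ℤ ((ps I : 𝓞 K) : K) := RingOfIntegers.isIntegral_coe _
  exact h.map embK.toRingHom.toIntAlgHom

section
variable {F : Type u} [Field F] [NumberField F] [Algebra K F] {W : WeierstrassCurve F}
  {m : Ideal (𝓞 F)} {ps : Ideal (𝓞 F) → 𝓞 K} (h : FDat F W m ps)
include h

theorem pC_one : pC ps 1 = 1 := by
  rw [pC, h.one]
  simp

theorem pC_mul (I J : Ideal (𝓞 F)) : pC ps (I * J) = pC ps I * pC ps J := by
  rw [pC, h.mul]
  simp [pC]

theorem bC_one : bC ps 1 = 1 := by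
  rw [bC_eq, pC_one h, map_one]

theorem bC_mul (I J : Ideal (𝓞 F)) : bC ps (I * J) = bC ps I * bC ps J := by
  rw [bC_eq, bC_eq, bC_eq, pC_mul h, map_mul]

theorem pC_mul_bC (I : Ideal (𝓞 F)) (hI : IsCoprime I m) :
    pC ps I * bC ps I = (Ideal.absNorm I : ℂ) := by
  have h1 := h.span I hI
  have h2 : Ideal.absNorm (Ideal.relNorm (𝓞 K) I) = Ideal.absNorm I :=
    Ideal.absNorm_relNorm (𝓞 K) (𝓞 F) I
  rw [bC_eq, Complex.mul_conj, Complex.normSq_eq_norm_sq, pC, ← h2, ← h1]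
  have h3 : (Ideal.absNorm (Ideal.span {ps I}) : ℝ) = ‖embK ((ps I : 𝓞 K) : K)‖ ^ 2 := by
    rw [← norm_K, Ideal.absNorm_span_singleton]
    have h : ((Algebra.norm ℤ (ps I) : ℤ) : ℚ) = Algebra.norm ℚ ((ps I : 𝓞 K) : K) :=
      Algebra.coe_norm_int _
    rw [← h, Nat.cast_natAbs]
    push_cast
    rfl
  rw [← h3]
  norm_cast

theorem norm_pC_le (I : Ideal (𝓞 F)) : ‖pC ps I‖ ≤ (Ideal.absNorm I : ℝ) ^ (1 / 2 : ℝ) := by
  by_cases hI : IsCoprime I m
  · have h1 := pC_mul_bC h I hI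
    rw [bC_eq, Complex.mul_conj, Complex.normSq_eq_norm_sq] at h1
    have h' : ‖pC ps I‖ ^ 2 = (Ideal.absNorm I : ℝ) := by exact_mod_cast h1
    rw [← h', ← Real.sqrt_eq_rpow, Real.sqrt_sq (norm_nonneg _)]
  · rw [pC, h.zero I hI]
    simp only [map_zero, norm_zero]
    positivity

theorem norm_bC_le (I : Ideal (𝓞 F)) : ‖bC ps I‖ ≤ (Ideal.absNorm I : ℝ) ^ (1 / 2 : ℝ) := by
  rw [bC_eq, RCLike.norm_conj]
  exact norm_pC_le h I

theorem bC_ne (I : Ideal (𝓞 F)) (hI : IsCoprime I m) (hI0 : I ≠ 0) : bC ps I ≠ 0 := by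
  intro h0
  have h1 := pC_mul_bC h I hI
  rw [h0, mul_zero] at h1
  have h2 := Ideal.absNorm_ne_zero_iff_mem_nonZeroDivisors.mpr
    (mem_nonZeroDivisors_iff_ne_zero.mpr hI0)
  exact h2 (by exact_mod_cast h1.symm)

theorem bC_bad (v : HeightOneSpectrum (𝓞 F)) (hv : m ≤ v.asIdeal) : bC ps v.asIdeal = 0 := by
  rw [bC, h.zero _ ((le_iff_not_coprime m v).1 hv)]
  simp

/-- the units which are congruent to `1` modulo `m` have norm `1` -/
theorem unit_norm (u : (𝓞 F)ˣ) (hu : (u : 𝓞 F) - 1 ∈ m) :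
    Algebra.norm K ((u : 𝓞 F) : F) = 1 := by
  have h1 := h.ray _ hu
  have h2 : Ideal.span {(u : 𝓞 F)} = 1 := by
    rw [Ideal.one_eq_top, Ideal.span_singleton_eq_top]
    exact u.isUnit
  rw [h2, h.one] at h1
  rw [← nK_coe, ← h1]
  exact map_one (algebraMap (𝓞 K) K)

/-- the character on principal ideals in a class modulo `m` -/
theorem ps_span (t : 𝓞 F) (ht : IsCoprime (Ideal.span {t}) m) :
    ∃ ε : (𝓞 K)ˣ, ∀ r : 𝓞 F, r - t ∈ m → ps (Ideal.span {r}) = ε * nK r := by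
  obtain ⟨y, hy, hy0⟩ : ∃ y : 𝓞 F, (∀ r : 𝓞 F, r - t ∈ m → r * y - 1 ∈ m) ∧ y ≠ 0 := by
    by_cases hm : m = ⊤
    · exact ⟨1, fun r _ => by rw [hm]; exact Submodule.mem_top, one_ne_zero⟩
    · obtain ⟨y, h1, -⟩ := exists_inv_mod m t t ht (by rw [sub_self]; exact m.zero_mem)
      refine ⟨y, fun r hr => ?_, ?_⟩
      · have e : r * y - 1 = (t * y - 1) + (r - t) * y := by ring
        rw [e]
        exact m.add_mem h1 (m.mul_mem_right _ hr)
      · rintro rfl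
        apply hm
        rw [Ideal.eq_top_iff_one]
        rw [mul_zero, zero_sub] at h1
        exact m.neg_mem_iff.1 h1
  have hty := hy t (by rw [sub_self]; exact m.zero_mem)
  have hyc : IsCoprime (Ideal.span {y}) m := by
    rw [Ideal.isCoprime_iff_exists]
    refine ⟨t * y, ?_, -(t * y - 1), m.neg_mem hty, by ring⟩
    rw [Ideal.mem_span_singleton]
    exact ⟨t, by ring⟩
  have h1 := h.span _ hyc
  rw [relNorm_span] at h1
  obtain ⟨u, hu⟩ := Ideal.span_singleton_eq_span_singleton.1 h1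
  have hn0 : nK y ≠ 0 := by
    rw [nK, Ne, Algebra.intNorm_eq_zero]
    exact hy0
  refine ⟨u, fun r hr => ?_⟩
  have h2 := h.ray _ (hy r hr)
  rw [← Ideal.span_singleton_mul_span_singleton, h.mul, nK_mul] at h2
  have hp0 : ps (Ideal.span {y}) ≠ 0 := by
    intro h0
    rw [h0, zero_mul] at hu
    exact hn0 hu.symm
  refine mul_right_cancel₀ hp0 ?_
  rw [h2, ← hu]
  ring

end

end Pool.Agent.Lib.MP_1a91b9_nuX.PA
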