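import Pool.Agent.Lib.MP_1a91b9_nuX.PA.Ps

/-!
# The primitive Hecke character: there are Euler factors without zero at a given point
-/

set_option autoImplicit false

namespace Pool.Agent.Lib.MP_1a91b9_nuX.PA

open NumberField IsDedekindDomain WeierstrassCurve Module Pool.Agent.Lib.MP_1a91b9_nuT
  Pool.Agent.Lib.MP_1a91b9_nt
open Pool.Agent.Lib.MP_1a91b9_nuT.S4
open Pool.Agent.Lib.MP_1a91b9_nuX.PG

universe u

private theorem nz_pow (c : ℂ) (hi : c.im ≠ 0) (d : ℕ) (hd : d ≠ 0) :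
    ∃ k : ℕ, (1 + (k : ℂ) * c) ^ d ≠ (1 + (k : ℂ) * (starRingEnd ℂ) c) ^ d := by
  by_contra hcon
  push Not at hcon
  have hc0 : c ≠ 0 := by
    rintro rfl
    exact hi rfl
  have h1 : (1 + Polynomial.C c * Polynomial.X) ^ d =
      (1 + Polynomial.C ((starRingEnd ℂ) c) * Polynomial.X) ^ d := by
    refine Polynomial.eq_of_infinite_eval_eq _ _ ?_
    refine Set.infinite_of_injective_forall_mem (f := fun k : ℕ => (k : ℂ))
      Nat.cast_injective fun k => ?_
    simp only [Set.mem_ofPred_eq, Polynomial.eval_pow, Polynomial.eval_add, Polynomial.eval_one,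
      Polynomial.eval_mul, Polynomial.eval_C, Polynomial.eval_X]
    rw [mul_comm c, mul_comm ((starRingEnd ℂ) c)]
    exact hcon k
  have h2 := congrArg (Polynomial.eval (-c⁻¹)) h1
  simp only [Polynomial.eval_pow, Polynomial.eval_add, Polynomial.eval_one,
    Polynomial.eval_mul, Polynomial.eval_C, Polynomial.eval_X] at h2
  rw [mul_neg, mul_inv_cancel₀ hc0, add_neg_cancel, zero_pow hd] at h2
  have h3 := pow_eq_zero_iff hd |>.1 h2.symm
  have h4 : (starRingEnd ℂ) c = c := by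
    have h5 : (1 + (starRingEnd ℂ) c * -c⁻¹) * c = 0 := by rw [h3, zero_mul]
    rw [add_mul, mul_assoc, neg_mul, inv_mul_cancel₀ hc0] at h5
    linear_combination -h5
  have h5 := congrArg Complex.im h4
  rw [Complex.conj_im] at h5
  apply hi
  linarith

variable [CD]

section
variable {F : Type u} [Field F] [NumberField F] [Algebra K F]

/-- the norm of the elements of `𝓞 K` -/
theorem nK_up (a : 𝓞 K) : nK (algebraMap (𝓞 K) (𝓞 F) a) = a ^ finrank K F := by
  apply RingOfIntegers.ext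
  rw [nK_coe]
  have e : ((algebraMap (𝓞 K) (𝓞 F) a : 𝓞 F) : F) = algebraMap K F (a : K) :=
    (IsScalarTower.algebraMap_apply (𝓞 K) (𝓞 F) F a).symm.trans
      (IsScalarTower.algebraMap_apply (𝓞 K) K F a)
  rw [e, Algebra.norm_algebraMap]
  exact (map_pow (algebraMap (𝓞 K) K) a _).symm

variable {W : WeierstrassCurve F} {m : Ideal (𝓞 F)} {ps : Ideal (𝓞 F) → 𝓞 K}
  (h : FDat F W m ps)
include h

/-- the character at the principal ideals generated by elements of `𝓞 K` -/
theorem ps_up (a : 𝓞 K) (ha : algebraMap (𝓞 K) (𝓞 F) a - 1 ∈ m) :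
    pC ps (Ideal.span {algebraMap (𝓞 K) (𝓞 F) a}) = embK (a : K) ^ finrank K F := by
  rw [pC, h.ray _ ha, nK_up]
  change embK (algebraMap (𝓞 K) K (a ^ _)) = _
  rw [map_pow, map_pow]

/-- There are Euler factors without zero at a given point. -/
theorem exists_ne (T : Finset (HeightOneSpectrum (𝓞 F))) (z : ℂ) :
    ∃ w : HeightOneSpectrum (𝓞 F), w ∉ T ∧
      bC ps w.asIdeal * (Ideal.absNorm w.asIdeal : ℂ) ^ (-z) ≠ 1 := by
  classical
  by_contra hcon
  push Not at hcon
  have h1 : ∀ I : Ideal (𝓞 F), I ≠ 0 → (∀ w ∈ T, ¬ I ≤ w.asIdeal) →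
      bC ps I * (Ideal.absNorm I : ℂ) ^ (-z) = 1 := by
    intro I
    induction I using UniqueFactorizationMonoid.induction_on_prime with
    | h₁ => exact fun h0 => absurd rfl h0
    | h₂ I hI =>
      intro _ _
      have hI1 : I = 1 := by rw [Ideal.one_eq_top]; exact Ideal.isUnit_iff.1 hI
      rw [hI1, bC_one h, map_one, Nat.cast_one, Complex.one_cpow, mul_one]
    | h₃ I p hI0 hp ih =>
      intro _ hT
      obtain ⟨w, hw⟩ : ∃ w : HeightOneSpectrum (𝓞 F), w.asIdeal = p :=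
        ⟨⟨p, Ideal.isPrime_of_prime hp, hp.ne_zero⟩, rfl⟩
      have hwT : w ∉ T := fun hw1 => hT w hw1 (by rw [hw]; exact Ideal.mul_le_left)
      have h2 := ih hI0 fun v hv h3 => hT v hv (Ideal.mul_le_right.trans h3)
      have h3 := hcon w hwT
      rw [hw] at h3
      rw [bC_mul h, map_mul, Nat.cast_mul, Complex.natCast_mul_natCast_cpow]
      linear_combination bC ps I * (Ideal.absNorm I : ℂ) ^ (-z) * h3 + h2
  obtain ⟨n, hn⟩ : ∃ n, n = m * ∏ w ∈ T, w.asIdeal := ⟨_, rfl⟩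
  have hn0 : n ≠ 0 := by
    have hm0 : m ≠ 0 := h.ne
    have hT0 : ∏ w ∈ T, w.asIdeal ≠ 0 := by
      rw [Finset.prod_ne_zero_iff]
      exact fun w _ => w.ne_bot
    rw [hn]
    exact mul_ne_zero hm0 hT0
  have hnm : n ≤ m := by
    rw [hn]
    exact Ideal.mul_le_left
  obtain ⟨P, hP⟩ : ∃ P : Ideal (𝓞 F), P = ∏ w ∈ T, w.asIdeal := ⟨_, rfl⟩
  have hPT : ∀ w ∈ T, P ≤ w.asIdeal := by
    intro w hw
    rw [← Ideal.dvd_iff_le, hP]
    exact Finset.dvd_prod_of_mem (fun w : HeightOneSpectrum (𝓞 F) => w.asIdeal) hw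
  have hnP : n ≤ P := by
    rw [hn, ← hP]
    exact Ideal.mul_le_right
  have hnT : ∀ w ∈ T, n ≤ w.asIdeal := fun w hw => hnP.trans (hPT w hw)
  have hM0 : Ideal.absNorm n ≠ 0 := by
    rw [Ne, Ideal.absNorm_eq_zero_iff]
    exact hn0
  have hMn : (Ideal.absNorm n : 𝓞 F) ∈ n := Ideal.absNorm_mem n
  have hz : (starRingEnd ℂ) ((Ideal.absNorm n : ℂ) * zt) =
      (Ideal.absNorm n : ℂ) * (starRingEnd ℂ) zt := by
    rw [map_mul, Complex.conj_natCast]
  obtain ⟨k, hk⟩ := nz_pow ((Ideal.absNorm n : ℂ) * zt)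
    (by
      rw [Complex.mul_im, Complex.natCast_re, Complex.natCast_im, zero_mul, add_zero]
      exact mul_ne_zero (by exact_mod_cast hM0) zt_ne)
    (finrank K F) finrank_pos.ne'
  rw [hz] at hk
  -- the values at the ideal of an element
  have key : ∀ (t : 𝓞 K) (x : ℂ), embK (t : K) = x → (1 + (k : ℂ) * ((Ideal.absNorm n : ℂ) * x)) ≠ 0 →
      (starRingEnd ℂ) (1 + (k : ℂ) * ((Ideal.absNorm n : ℂ) * x)) ^ finrank K F *
        ((1 + (k : ℂ) * ((Ideal.absNorm n : ℂ) * x)) ^ finrank K F *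
          (starRingEnd ℂ) (1 + (k : ℂ) * ((Ideal.absNorm n : ℂ) * x)) ^ finrank K F) ^ (-z) = 1 := by
    intro t x hx hne
    obtain ⟨a, ha⟩ : ∃ a : 𝓞 K, a = 1 + (k : 𝓞 K) * ((Ideal.absNorm n : 𝓞 K) * t) := ⟨_, rfl⟩
    have hax : embK (a : K) = 1 + (k : ℂ) * ((Ideal.absNorm n : ℂ) * x) := by
      rw [ha]
      change embK (algebraMap (𝓞 K) K _) = _
      rw [map_add, map_one, map_mul, map_mul, map_natCast, map_natCast, map_add, map_one, map_mul,
        map_mul, map_natCast, map_natCast, ← hx]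
    obtain ⟨b, hb⟩ : ∃ b : 𝓞 F, b = algebraMap (𝓞 K) (𝓞 F) a := ⟨_, rfl⟩
    have hbn : b - 1 ∈ n := by
      have e : b - 1 = (k : 𝓞 F) * algebraMap (𝓞 K) (𝓞 F) t * (Ideal.absNorm n : 𝓞 F) := by
        rw [hb, ha, map_add, map_one, map_mul, map_mul, map_natCast, map_natCast]
        ring
      rw [e]
      exact Ideal.mul_mem_left _ _ hMn
    have hb0 : b ≠ 0 := by
      rintro h0
      rw [hb, map_eq_zero_iff _ (FaithfulSMul.algebraMap_injective (𝓞 K) (𝓞 F))] at h0
      rw [h0] at hax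
      apply hne
      rw [← hax]
      simp
    have hbT : ∀ w ∈ T, ¬ Ideal.span {b} ≤ w.asIdeal := by
      intro w hw hle
      have h2 : b ∈ w.asIdeal := hle (Ideal.mem_span_singleton_self b)
      have h3 := hnT w hw hbn
      apply w.isPrime.ne_top
      rw [Ideal.eq_top_iff_one]
      have e : (1 : 𝓞 F) = b - (b - 1) := by ring
      rw [e]
      exact Ideal.sub_mem _ h2 h3
    have h2 := h1 (Ideal.span {b}) (by
      rw [Ne, Ideal.zero_eq_bot, Ideal.span_singleton_eq_bot]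
      exact hb0) hbT
    have hcop : IsCoprime (Ideal.span {b}) m := by
      rw [Ideal.isCoprime_iff_exists]
      exact ⟨b, Ideal.mem_span_singleton_self b, -(b - 1), m.neg_mem (hnm hbn), by ring⟩
    have h3 := pC_mul_bC h _ hcop
    have h4 : pC ps (Ideal.span {b}) = embK (a : K) ^ finrank K F := by
      rw [hb]
      exact ps_up h a (by rw [← hb]; exact hnm hbn)
    rw [bC_eq, h4, hax, map_pow] at h3
    rw [bC_eq, h4, hax, map_pow, ← h3] at h2
    exact h2
  have hne : (1 + (k : ℂ) * ((Ideal.absNorm n : ℂ) * zt)) ≠ 0 := by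
    intro h0
    apply hk
    have h2 := congrArg (starRingEnd ℂ) h0
    rw [map_add, map_one, map_mul, map_natCast, hz, map_zero] at h2
    rw [h0, h2]
  have hne' : (1 + (k : ℂ) * ((Ideal.absNorm n : ℂ) * (starRingEnd ℂ) zt)) ≠ 0 := by
    intro h0
    apply hne
    have h2 := congrArg (starRingEnd ℂ) h0
    rw [map_add, map_one, map_mul, map_natCast, map_mul, map_natCast, Complex.conj_conj,
      map_zero] at h2
    exact h2
  have e1 := key ta zt rfl hne
  have e2 := key (cj ta) ((starRingEnd ℂ) zt) (emb_cj ta) hne'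
  rw [map_add, map_one, map_mul, map_natCast, map_mul, map_natCast] at e1
  rw [map_add, map_one, map_mul, map_natCast, map_mul, map_natCast, Complex.conj_conj,
    mul_comm ((1 + (k : ℂ) * ((Ideal.absNorm n : ℂ) * (starRingEnd ℂ) zt)) ^ finrank K F)] at e2
  have e3 := e1.trans e2.symm
  have h5 : ((1 + (k : ℂ) * ((Ideal.absNorm n : ℂ) * zt)) ^ finrank K F *
      (1 + (k : ℂ) * ((Ideal.absNorm n : ℂ) * (starRingEnd ℂ) zt)) ^ finrank K F) ^ (-z) ≠ 0 := by
    intro h0
    rw [h0, mul_zero] at e1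
    exact zero_ne_one e1
  exact hk (mul_right_cancel₀ h5 e3).symm

end

end Pool.Agent.Lib.MP_1a91b9_nuX.PA
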