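import Pool.Agent.Lib.MP_1a91b9_nuX.PA.Unf
import Pool.Agent.Lib.MP_1a91b9_nuX.PA.Nz
import Pool.Agent.Lib.MP_1a91b9_nuT.S4.Compare
import Pool.Agent.Lib.MP_1a91b9_nuT.S4.TwoAdic

/-!
# The primitive Hecke character: the continuation of the L-series
-/

set_option autoImplicit false

namespace Pool.Agent.Lib.MP_1a91b9_nuX.PA

open NumberField IsDedekindDomain WeierstrassCurve Module Pool.Agent.Lib.MP_1a91b9_nuT
  Pool.Agent.Lib.MP_1a91b9_nt
open Pool.Agent.Lib.MP_1a91b9_nuT.S4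
open Pool.Agent.Lib.MP_1a91b9_nuX.PG

universe u

variable [CD]

section
variable {F : Type u} [Field F] [NumberField F] [Algebra K F] {W : WeierstrassCurve F}
  {m : Ideal (𝓞 F)} {ps : Ideal (𝓞 F) → 𝓞 K} (h : FDat F W m ps)

/-- the places where a torsion unit different from `1` is congruent to `1` -/
theorem finite_tor : {w : HeightOneSpectrum (𝓞 F) | ∃ u : (𝓞 F)ˣ, (∃ k : ℕ, 0 < k ∧ u ^ k = 1) ∧
    u ≠ 1 ∧ (u : 𝓞 F) - 1 ∈ w.asIdeal}.Finite := by
  have h1 : {u : (𝓞 F)ˣ | (∃ k : ℕ, 0 < k ∧ u ^ k = 1) ∧ u ≠ 1}.Finite := by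
    have h2 : (Set.range fun u : NumberField.Units.torsion F => (u : (𝓞 F)ˣ)).Finite :=
      Set.finite_range _
    refine h2.subset ?_
    rintro u ⟨⟨k, hk, hu⟩, -⟩
    exact ⟨⟨u, isOfFinOrder_iff_pow_eq_one.2 ⟨k, hk, hu⟩⟩, rfl⟩
  have h3 : (⋃ u ∈ {u : (𝓞 F)ˣ | (∃ k : ℕ, 0 < k ∧ u ^ k = 1) ∧ u ≠ 1},
      {w : HeightOneSpectrum (𝓞 F) | w.asIdeal ∣ Ideal.span {(u : 𝓞 F) - 1}}).Finite := by
    refine h1.biUnion fun u hu => Ideal.finite_factors ?_
    rw [Ne, Ideal.zero_eq_bot, Ideal.span_singleton_eq_bot, sub_eq_zero]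
    intro h0
    exact hu.2 (Units.ext h0)
  refine h3.subset ?_
  rintro w ⟨u, hu, hu1, hw⟩
  simp only [Set.mem_iUnion]
  refine ⟨u, ⟨hu, hu1⟩, ?_⟩
  change w.asIdeal ∣ Ideal.span {(u : 𝓞 F) - 1}
  rw [Ideal.dvd_span_singleton]
  exact hw

include h

/-- the Euler factor at one place -/
theorem Lf_one (w : HeightOneSpectrum (𝓞 F)) (s : ℂ) (hs : 2 < s.re) :
    Lf (fun I => bC ps I * indC (m * w.asIdeal) I) s =
      Lf (bC ps) s * (1 - bC ps w.asIdeal * (Ideal.absNorm w.asIdeal : ℂ) ^ (-s)) := by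
  classical
  have h0 : ∀ I, bC ps I * indC (m * w.asIdeal) I = bC ps I * indC w.asIdeal I := by
    intro I
    by_cases hI : IsCoprime I m
    · by_cases hI2 : IsCoprime I w.asIdeal
      · rw [indC_of (hI.mul_right hI2), indC_of hI2]
      · rw [indC_of_not (fun h => hI2 h.of_mul_right_right), indC_of_not hI2]
    · have e : bC ps I = 0 := by
        rw [bC, h.zero I hI]
        simp
      rw [e, zero_mul, zero_mul]
  have h := compare_Lf (fun I => bC ps I * indC (m * w.asIdeal) I) (bC ps)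
    (by rw [bC_one h, indC_one, mul_one])
    (fun I J => by
      rw [bC_mul h, indC_mul]; ring)
    (fun I => by
      rw [norm_mul]
      calc ‖bC ps I‖ * ‖indC (m * w.asIdeal) I‖ ≤ (Ideal.absNorm I : ℝ) ^ (1 / 2 : ℝ) * 1 :=
            mul_le_mul (norm_bC_le h I) (norm_indC_le _ I) (norm_nonneg _) (by positivity)
        _ = _ := mul_one _) (bC_one h) (bC_mul h) (norm_bC_le h) {w}
    (fun v hv => by
      have hv' : v ≠ w := by simpa using hv
      have h1 : IsCoprime v.asIdeal w.asIdeal := by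
        by_contra h2
        rw [← le_iff_not_coprime w.asIdeal v] at h2
        exact hv' (HeightOneSpectrum.ext (w.isMaximal.eq_of_le v.isPrime.ne_top h2).symm)
      rw [h0, indC_of h1, mul_one]) s hs
  rw [Finset.prod_singleton, Finset.prod_singleton] at h
  rw [← h, indC_of_not, mul_zero, zero_mul, sub_zero, mul_one]
  intro h2
  have h3 := h2.of_mul_right_right
  exact w.isPrime.ne_top (Ideal.isUnit_iff.1 (isCoprime_self.1 h3))

/-- **The L-series of the conjugate of the primitive character is an entire function.** -/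
theorem fdat_cont : ∃ L : ℂ → ℂ, Differentiable ℂ L ∧
    ∀ s : ℂ, 2 < s.re → L s = Lf (bC ps) s := by
  classical
  have hf1 : {w : HeightOneSpectrum (𝓞 F) | w.asIdeal ∣ m}.Finite := Ideal.finite_factors h.ne
  obtain ⟨T, hT⟩ : ∃ T : Finset (HeightOneSpectrum (𝓞 F)), ∀ w, w ∉ T → ¬ m ≤ w.asIdeal ∧
      ∀ u : (𝓞 F)ˣ, (u : 𝓞 F) - 1 ∈ w.asIdeal → ∀ k : ℕ, 0 < k → u ^ k = 1 → u = 1 := by
    refine ⟨(hf1.union (finite_tor (F := F))).toFinset, fun w hw => ?_⟩
    rw [Set.Finite.mem_toFinset, Set.mem_union, not_or] at hw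
    refine ⟨fun h1 => hw.1 (Ideal.dvd_iff_le.2 h1), fun u hu k hk huk => ?_⟩
    by_contra h1
    exact hw.2 ⟨u, ⟨k, hk, huk⟩, h1, hu⟩
  have hG : ∀ w : HeightOneSpectrum (𝓞 F), w ∉ T → ∃ G : ℂ → ℂ, Differentiable ℂ G ∧
      ∀ s : ℂ, 2 < s.re → Lf (fun I => bC ps I * indC (m * w.asIdeal) I) s = G s := by
    intro w hw
    have hm0 : m ≠ 0 := h.ne
    refine unf_cont h (m * w.asIdeal) (mul_ne_zero hm0 w.ne_bot) ?_ Ideal.mul_le_left
      fun u hu k hk huk => (hT w hw).2 u (Ideal.mul_le_right hu) k hk huk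
    intro h1
    apply w.isPrime.ne_top
    rw [Ideal.one_eq_top] at h1
    rw [eq_top_iff, ← h1]
    exact Ideal.mul_le_right
  choose! G hGd hGs using hG
  obtain ⟨e, he⟩ : ∃ e : HeightOneSpectrum (𝓞 F) → ℂ → ℂ, e = fun w s =>
      1 - bC ps w.asIdeal * (Ideal.absNorm w.asIdeal : ℂ) ^ (-s) := ⟨_, rfl⟩
  have hed : ∀ w, Differentiable ℂ (e w) := by
    intro w
    rw [he]
    have hN : (Ideal.absNorm w.asIdeal : ℂ) ≠ 0 := by
      have := Ideal.absNorm_ne_zero_iff_mem_nonZeroDivisors.mpr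
        (mem_nonZeroDivisors_iff_ne_zero.mpr w.ne_bot)
      exact_mod_cast this
    exact (differentiable_const _).sub ((differentiable_const _).mul
      (differentiable_id.neg.const_cpow (Or.inl hN)))
  have hGe : ∀ w, w ∉ T → ∀ s : ℂ, 2 < s.re → G w s = Lf (bC ps) s * e w s := by
    intro w hw s hs
    rw [← hGs w hw s hs, Lf_one h w s hs, he]
  have hcr : ∀ w w' : HeightOneSpectrum (𝓞 F), w ∉ T → w' ∉ T → ∀ z : ℂ,
      G w z * e w' z = G w' z * e w z := by
    intro w w' hw hw' z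
    have h1 : (fun z => G w z * e w' z) = fun z => G w' z * e w z :=
      entire_eq ((hGd w hw).mul (hed w')) ((hGd w' hw').mul (hed w)) fun s hs => by
        rw [hGe w hw s hs, hGe w' hw' s hs]
        ring
    exact congrFun h1 z
  have hex : ∀ z : ℂ, ∃ w : HeightOneSpectrum (𝓞 F), w ∉ T ∧ e w z ≠ 0 := by
    intro z
    obtain ⟨w, hw, hne⟩ := exists_ne h T z
    refine ⟨w, hw, ?_⟩
    rw [he]
    exact sub_ne_zero.2 (Ne.symm hne)
  choose W' hWT hWe using hex
  refine ⟨fun z => G (W' z) z / e (W' z) z, fun z => ?_, fun s hs => ?_⟩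
  · have h1 : ∀ᶠ y in nhds z, G (W' y) y / e (W' y) y = G (W' z) y / e (W' z) y := by
      have h2 : ∀ᶠ y in nhds z, e (W' z) y ≠ 0 :=
        (hed (W' z)).continuous.continuousAt.eventually_ne (hWe z)
      filter_upwards [h2] with y hy
      rw [div_eq_div_iff (hWe y) hy]
      exact hcr _ _ (hWT y) (hWT z) y
    have h3 : DifferentiableAt ℂ (fun y => G (W' z) y / e (W' z) y) z :=
      ((hGd _ (hWT z)) z).div ((hed _) z) (hWe z)
    exact h3.congr_of_eventuallyEq h1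
  · change G (W' s) s / e (W' s) s = _
    rw [hGe _ (hWT s) s hs, mul_div_cancel_right₀ _ (hWe s)]

end

end Pool.Agent.Lib.MP_1a91b9_nuX.PA
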