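import Pool.Agent.Lib.MP_1a91b9_nuX.PA.Ps
import Pool.Agent.Lib.MP_1a91b9_nuX.AN.Val

/-!
# The primitive Hecke character: the unfolding of the L-series over the classes modulo `n ≤ m`
-/

set_option autoImplicit false

namespace Pool.Agent.Lib.MP_1a91b9_nuX.PA

open NumberField IsDedekindDomain WeierstrassCurve Module Pool.Agent.Lib.MP_1a91b9_nuT
  Pool.Agent.Lib.MP_1a91b9_nt
open Pool.Agent.Lib.MP_1a91b9_nuT.S4 Pool.Agent.Lib.MP_1a91b9_nuT.Ell
  Pool.Agent.Lib.MP_1a91b9_nuT.S7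
open Pool.Agent.Lib.MP_1a91b9_nuX.PG

variable [CD]

universe u

section
variable {F : Type u} [Field F] [NumberField F] [Algebra K F] {W : WeierstrassCurve F}
  {m : Ideal (𝓞 F)} {ps : Ideal (𝓞 F) → 𝓞 K} (h : FDat F W m ps)
include h

/-- The value at one ideal. -/
theorem unf_term (I b : Ideal (𝓞 F)) (r : 𝓞 F) (ε : 𝓞 K) (hb : b ≠ 0) (hr0 : r ≠ 0)
    (hpb : bC ps b ≠ 0) (hI : I * b = Ideal.span {r})
    (hε : ps (Ideal.span {r}) = ε * nK r) (x s : ℂ) :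
    bC ps I * x * (Ideal.absNorm I : ℂ) ^ (-s) =
      x * ((starRingEnd ℂ) (embK (ε : K)) / bC ps b) * (Ideal.absNorm b : ℂ) ^ s *
        ((starRingEnd ℂ) (Nm (r : F)) * ((‖Nm (r : F)‖ : ℝ) : ℂ) ^ (-2 * s)) := by
  have hNb : (Ideal.absNorm b : ℂ) ≠ 0 := by
    have := Ideal.absNorm_ne_zero_iff_mem_nonZeroDivisors.mpr
      (mem_nonZeroDivisors_iff_ne_zero.mpr hb)
    exact_mod_cast this
  have hpsi : pC ps I * pC ps b = embK (ε : K) * Nm (r : F) := by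
    rw [← pC_mul h, hI, pC, hε, ← embK_nK]
    change embK (algebraMap (𝓞 K) K (_ * _)) = _
    rw [map_mul, map_mul]
  have hpsib : bC ps I * bC ps b =
      (starRingEnd ℂ) (embK (ε : K)) * (starRingEnd ℂ) (Nm (r : F)) := by
    rw [bC_eq, bC_eq, ← map_mul, hpsi, map_mul]
  have hnorm : (Ideal.absNorm I : ℂ) ^ (-s) =
      (Ideal.absNorm b : ℂ) ^ s * ((‖Nm (r : F)‖ : ℝ) : ℂ) ^ (-2 * s) := by
    rw [← absNorm_cpow _ hr0, ← hI, map_mul, Nat.cast_mul, Complex.natCast_mul_natCast_cpow,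
      mul_comm ((Ideal.absNorm I : ℂ) ^ (-s)), ← mul_assoc, ← Complex.cpow_add _ _ hNb,
      add_neg_cancel, Complex.cpow_zero, one_mul]
  have hq : bC ps I = (starRingEnd ℂ) (embK (ε : K)) *
      (starRingEnd ℂ) (Nm (r : F)) / bC ps b := by
    rw [eq_div_iff hpb, hpsib]
  rw [hnorm, hq]
  ring

/-- The unfolding of `L(ψbar X, s)` over the ideal and residue classes modulo `n ≤ m`. -/
theorem unf_L (c n : Ideal (𝓞 F)) (hc0 : c ≠ 0) (hn0 : n ≠ 0) (hn1 : n ≠ 1) (h3 : n ≤ m) :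
    ∃ (ι : Type u) (_ : Fintype ι) (b : ι → Ideal (𝓞 F)) (t : ι → 𝓞 F) (J : ι → Ideal (𝓞 F))
      (k : ι → ℂ),
      (∀ i, b i ≠ 0 ∧ IsCoprime (b i) c ∧ IsCoprime (b i) n ∧ t i ∈ b i ∧
        t i ∉ n * b i ∧ IsCoprime (J i) n) ∧
      ∀ A : ι → ℂ → ℂ, (∀ i R, IsRep n (b i) (t i) R → ∀ s : ℂ, 2 < s.re →
        HasSum (fun r : R => (starRingEnd ℂ) (Nm ((r : 𝓞 F) : F)) *
          ((‖Nm ((r : 𝓞 F) : F)‖ : ℝ) : ℂ) ^ (-2 * s)) (A i s)) →
      ∀ X : Ideal (𝓞 F) → ℂ, (∀ I, ¬ IsCoprime I n → X I = 0) → (∀ I, ‖X I‖ ≤ 1) →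
        (∀ I J, RayEq n I J → X I = X J) → ∀ s : ℂ, 2 < s.re →
        Lf (fun I => bC ps I * X I) s =
          ∑ i, X (J i) * k i * (Ideal.absNorm (b i) : ℂ) ^ s * A i s := by
  classical
  obtain ⟨ι, hι, b, t, J, hb, hunf⟩ := unfold_index n c hn0 hn1 hc0
  have h3m : m ∣ n := Ideal.dvd_iff_le.mpr h3
  have hbm : ∀ i, IsCoprime (b i) n := fun i => (IsCoprime.of_mul_right_right (hb i).2.1)
  have hb2 : ∀ i, IsCoprime (b i) c := fun i =>
    IsCoprime.of_mul_right_left (hb i).2.1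
  have hb3 : ∀ i, IsCoprime (b i) m := fun i => (hbm i).of_isCoprime_of_dvd_right h3m
  have ht3 : ∀ i, IsCoprime (Ideal.span {t i}) m := by
    intro i
    rw [← (hb i).2.2.2.2.2.1]
    exact ((hb i).2.2.2.2.2.2.of_isCoprime_of_dvd_right h3m).mul_left (hb3 i)
  choose ε hε using fun i => ps_span h (t i) (ht3 i)
  have hpb : ∀ i, bC ps (b i) ≠ 0 := fun i => bC_ne h (b i) (hb3 i) (hb i).1
  refine ⟨ι, hι, b, t, J, fun i => (starRingEnd ℂ) (embK ((ε i : 𝓞 K) : K)) / bC ps (b i),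
    ?_, ?_⟩
  · intro i
    exact ⟨(hb i).1, hb2 i, hbm i, (hb i).2.2.1, (hb i).2.2.2.1, (hb i).2.2.2.2.2.2⟩
  intro A hA X hX0 hX1 hXr s hs
  choose R hR using fun i => exists_isRep n (b i) (t i)
  obtain ⟨e, hinj, he, hsurj⟩ := hunf R hR
  set g : Ideal (𝓞 F) → ℂ := fun I => bC ps I * X I * (Ideal.absNorm I : ℂ) ^ (-s) with hg
  have hs0 : s.re ≠ 0 := by
    intro h
    rw [h] at hs
    linarith
  have hsum : Summable g := by
    refine Summable.of_norm ?_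
    refine summable_ideals_mul F (fun I => bC ps I * X I) 1 (1 / 2) (fun I => ?_) s
      (by linarith) hs0
    rw [norm_mul, one_mul]
    calc ‖bC ps I‖ * ‖X I‖ ≤ (Ideal.absNorm I : ℝ) ^ (1 / 2 : ℝ) * 1 :=
          mul_le_mul (norm_bC_le h I) (hX1 I) (norm_nonneg _) (by positivity)
      _ = _ := mul_one _
  have hsupp : Function.support g ⊆ Set.range e := by
    intro I hI
    by_cases hc : IsCoprime I n
    · exact hsurj I hc
    · exfalso
      apply hI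
      simp only [hg]
      rw [hX0 I hc, mul_zero, zero_mul]
  have h1 : Lf (fun I => bC ps I * X I) s = ∑' x, g (e x) := (hinj.tsum_eq hsupp).symm
  rw [h1]
  have hsum' : Summable fun x => g (e x) := hsum.comp_injective hinj
  rw [hsum'.tsum_sigma, tsum_fintype]
  refine Finset.sum_congr rfl fun i _ => ?_
  set C : ℂ := X (J i) * ((starRingEnd ℂ) (embK ((ε i : 𝓞 K) : K)) / bC ps (b i)) *
      (Ideal.absNorm (b i) : ℂ) ^ s with hC
  have hterm : ∀ r : R i, g (e ⟨i, r⟩) = C * ((starRingEnd ℂ) (Nm ((r : 𝓞 F) : F)) *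
          ((‖Nm ((r : 𝓞 F) : F)‖ : ℝ) : ℂ) ^ (-2 * s)) := by
    intro r
    obtain ⟨g1, g2, g3⟩ := he ⟨i, r⟩
    have g2' : e ⟨i, r⟩ * b i = Ideal.span {(r : 𝓞 F)} := g2
    have hr0 : (r : 𝓞 F) ≠ 0 := by
      intro h
      rw [h, Ideal.span_singleton_zero, ← Ideal.zero_eq_bot] at g2'
      rcases mul_eq_zero.mp g2' with h' | h'
      · exact ne_zero_of_coprime hn1 g1 h'
      · exact (hb i).1 h'
    have hrt : (r : 𝓞 F) - t i ∈ m := h3 (Ideal.mul_le_left ((hR i).mem r r.2))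
    have hXJ : X (e ⟨i, r⟩) = X (J i) := hXr _ _ g3
    rw [hC, ← hXJ]
    exact unf_term h (e ⟨i, r⟩) (b i) r (ε i) (hb i).1 hr0 (hpb i) g2' (hε i r hrt) _ s
  have h2 := (hA i (R i) (hR i) s hs).mul_left C
  rw [tsum_congr hterm]
  exact h2.tsum_eq

/-- The continuation of the L-series with the places above `n` removed. -/
theorem unf_cont (n : Ideal (𝓞 F)) (hn0 : n ≠ 0) (hn1 : n ≠ 1) (h3 : n ≤ m)
    (htor : ∀ u : (𝓞 F)ˣ, (u : 𝓞 F) - 1 ∈ n → ∀ k : ℕ, 0 < k → u ^ k = 1 → u = 1) :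
    ∃ G : ℂ → ℂ, Differentiable ℂ G ∧
      ∀ s : ℂ, 2 < s.re → Lf (fun I => bC ps I * indC n I) s = G s := by
  have hD : Ideal.absNorm (differentIdeal (𝓞 K) (𝓞 F)) ≠ 0 := by
    rw [Ne, Ideal.absNorm_eq_zero_iff]
    exact differentIdeal_ne_bot
  have hn' : Ideal.absNorm n ≠ 0 := by
    rw [Ne, Ideal.absNorm_eq_zero_iff]
    exact hn0
  have h2n : 2 ^ finrank K F - 1 ≠ 0 := by
    have h0 : 0 < finrank K F := finrank_pos
    have : 2 ^ 1 ≤ 2 ^ finrank K F := Nat.pow_le_pow_right (by norm_num) h0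
    omega
  obtain ⟨q, hq, hqp⟩ := Nat.exists_infinite_primes
    (Ideal.absNorm (differentIdeal (𝓞 K) (𝓞 F)) + Ideal.absNorm n + (2 ^ finrank K F - 1) + 5)
  have hcop : ∀ k : ℕ, k ≠ 0 → k < q → k.Coprime q := by
    intro k h0 hk
    rw [Nat.coprime_comm, Nat.Prime.coprime_iff_not_dvd hqp]
    intro hd
    have := Nat.le_of_dvd (Nat.pos_of_ne_zero h0) hd
    omega
  have hnq : IsCoprime n (Ideal.span {(q : 𝓞 F)}) := by
    have h1 := Nat.isCoprime_iff_coprime.2 (hcop _ hn' (by omega))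
    obtain ⟨a, b, hab⟩ := h1
    rw [Ideal.isCoprime_iff_exists]
    refine ⟨(a : 𝓞 F) * (Ideal.absNorm n : 𝓞 F), Ideal.mul_mem_left _ _ (Ideal.absNorm_mem n),
      (b : 𝓞 F) * (q : 𝓞 F), Ideal.mul_mem_left _ _ (Ideal.mem_span_singleton_self _), ?_⟩
    have h2 := congrArg (Int.cast (R := 𝓞 F)) hab
    push_cast at h2
    exact h2
  have he1 : IsCoprime (2 : 𝓞 K) (q : 𝓞 K) := by
    have h := Nat.Coprime.cast (R := 𝓞 K) (hcop 2 (by norm_num) (by omega))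
    exact_mod_cast h
  have he2 : IsCoprime ((2 : 𝓞 K) ^ finrank K F - 1) (q : 𝓞 K) := by
    have h := Nat.Coprime.cast (R := 𝓞 K) (hcop (2 ^ finrank K F - 1) h2n (by omega))
    rw [Nat.cast_sub Nat.one_le_two_pow] at h
    exact_mod_cast h
  have hU := AN.uq_of_coprime q F (hcop _ hD (by omega))
  have hc0 : Ideal.span {(q : 𝓞 F)} ≠ 0 := by
    rw [Ne, Ideal.zero_eq_bot, Ideal.span_singleton_eq_bot]
    exact_mod_cast hqp.ne_zero
  obtain ⟨ι, hι, b, t, J, k, h1, h4⟩ := unf_L h (Ideal.span {(q : 𝓞 F)}) n hc0 hn0 hn1 h3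
  choose A hA using fun i => d6_gen hqp (2 : 𝓞 K) he1 he2 hU (b i) n (h1 i).1 (h1 i).2.1 hn0 hnq
    (fun u hu => unit_norm h u (h3 hu)) htor (t i) (h1 i).2.2.2.1 (h1 i).2.2.2.2.1
  have hNb : ∀ i, (Ideal.absNorm (b i) : ℂ) ≠ 0 := by
    intro i
    have := Ideal.absNorm_ne_zero_iff_mem_nonZeroDivisors.mpr
      (mem_nonZeroDivisors_iff_ne_zero.mpr (h1 i).1)
    exact_mod_cast this
  refine ⟨fun s => ∑ i, indC n (J i) * k i * (Ideal.absNorm (b i) : ℂ) ^ s * A i s, ?_, ?_⟩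
  · refine Differentiable.fun_sum fun i _ => Differentiable.mul ?_ (hA i).1
    refine Differentiable.mul (differentiable_const _) ?_
    exact (differentiable_id).const_cpow (Or.inl (hNb i))
  · intro s hs
    exact h4 A (fun i R hR s hs => hasSum_coe ((hA i).2.1 _ (repsU_of_isRep (h1 i).2.2.2.2.1 hR) s
      hs)) (indC n) (fun I hI => indC_of_not hI) (norm_indC_le n) (indC_ray n) s hs

end

end Pool.Agent.Lib.MP_1a91b9_nuX.PA
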